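import Mathlib

set_option autoImplicit false

/-!
# Graphs of successor chromatic number without large topological complete subgraphs

For every infinite cardinal `a` we construct a graph with chromatic number at least `a⁺` which
contains no subdivision of the complete graph on `a⁺` vertices.

The vertices are the injective sequences of elements of a set `A` of size `a`, of length less than
`a⁺`; two of them are adjacent when one of them properly extends the other.
A colouring with `a` colours would let us build, by recursion, an injective sequence of length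
`a⁺` of elements of `A`.  Two incomparable sequences are separated by the set of the proper initial
segments of one of them, which has size at most `a`, so the branch vertices of a subdivision of the
complete graph on `a⁺` vertices would be pairwise comparable, and their union would be an
injective sequence of length `a⁺` of elements of `A`.
-/

namespace Pool.Agent.Results.MP_e76a7e_co.InjectiveSequences

open Cardinal

universe u

/-- The chromatic number of a graph, as a cardinal: the least `κ` such that the vertex set is a
union of `κ` independent sets. -/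
noncomputable def chromaticCard {V : Type u} (G : SimpleGraph V) : Cardinal.{u} :=
  sInf {κ | ∃ (ι : Type u) (I : ι → Set V), #ι = κ ∧ (∀ i, G.IsIndepSet (I i)) ∧
    (⋃ i, I i) = Set.univ}

/-- `G` contains a subdivision of the complete graph on `κ` vertices: there is a set `B` of `κ`
branch vertices and, for all `x ≠ y` in `B`, a (finite) path `P x y` from `x` to `y` (the path for
`y`, `x` being the same path traversed backwards), such that no path has an inner vertex
in `B` and paths for different pairs are internally disjoint. -/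
def HasSubdivision {V : Type u} (G : SimpleGraph V) (κ : Cardinal.{u}) : Prop :=
  ∃ (B : Set V) (P : ∀ x y : B, x ≠ y → G.Walk (x : V) (y : V)), #B = κ ∧
    (∀ x y h, (P x y h).IsPath) ∧
    (∀ x y h, P y x (Ne.symm h) = (P x y h).reverse) ∧
    (∀ x y h, ∀ v ∈ (P x y h).support, v ∈ B → v = x ∨ v = y) ∧
    (∀ x y h x' y' h', s(x, y) ≠ s(x', y') →
      ∀ v ∈ (P x y h).support, v ∈ (P x' y' h').support → v ∈ B)

section Construction

variable (O A : Type u) [LinearOrder O] [WellFoundedLT O]

/-- Injective sequences of elements of `A` indexed by the elements below some `α : O`. -/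
def Node : Type u := Σ α : O, {f : Set.Iio α → A // Function.Injective f}

variable {O A}

/-- `s` is a proper initial segment of `t`. -/
def Below (s t : Node O A) : Prop :=
  ∃ h : s.1 < t.1, ∀ x : Set.Iio s.1, t.2.1 ⟨x.1, lt_trans x.2 h⟩ = s.2.1 x

lemma Below.trans {s t r : Node O A} (h1 : Below s t) (h2 : Below t r) : Below s r := by
  obtain ⟨h1, k1⟩ := h1
  obtain ⟨h2, k2⟩ := h2
  refine ⟨h1.trans h2, fun x => ?_⟩
  rw [← k1 x, ← k2 ⟨x.1, lt_trans x.2 h1⟩]

lemma Below.ne {s t : Node O A} (h : Below s t) : s ≠ t := by
  rintro rfl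
  exact lt_irrefl _ h.1

lemma node_ext {s t : Node O A} (h : s.1 = t.1)
    (h2 : ∀ (x : O) (h1 : x < s.1) (h2 : x < t.1), s.2.1 ⟨x, h1⟩ = t.2.1 ⟨x, h2⟩) : s = t := by
  obtain ⟨α, f, hf⟩ := s
  obtain ⟨β, g, hg⟩ := t
  obtain rfl : α = β := h
  have : f = g := by
    funext x
    exact h2 x.1 x.2 x.2
  subst this
  rfl

/-- Two initial segments of the same sequence are comparable. -/
lemma comparable_of_below {s t r : Node O A} (h1 : Below s r) (h2 : Below t r) :
    Below s t ∨ s = t ∨ Below t s := by
  obtain ⟨h1, k1⟩ := h1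
  obtain ⟨h2, k2⟩ := h2
  rcases lt_trichotomy s.1 t.1 with h | h | h
  · refine Or.inl ⟨h, fun x => ?_⟩
    rw [← k1 x, ← k2]
  · refine Or.inr (Or.inl (node_ext h fun x hx1 hx2 => ?_))
    rw [← k1 ⟨x, hx1⟩, ← k2 ⟨x, hx2⟩]
  · refine Or.inr (Or.inr ⟨h, fun x => ?_⟩)
    rw [← k2 x, ← k1]

/-- The comparability graph of the tree of injective sequences. -/
def graph (O A : Type u) [LinearOrder O] [WellFoundedLT O] : SimpleGraph (Node O A) where
  Adj s t := Below s t ∨ Below t s
  symm := ⟨fun _ _ h => h.symm⟩
  loopless := ⟨fun _ h => h.elim (fun h => h.ne rfl) (fun h => h.ne rfl)⟩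

/-- A colouring with colours in `A` yields an injection from `O` to `A`. -/
lemma injection_of_colouring (c : Node O A → A) (hc : ∀ s t, Below s t → c s ≠ c t)
    (a₀ : A) : ∃ F : O → A, Function.Injective F := by
  classical
  let F : O → A := WellFounded.fix (wellFounded_lt (α := O)) fun α rec =>
    if h : Function.Injective (fun x : Set.Iio α => rec x.1 x.2) then c ⟨α, ⟨_, h⟩⟩ else a₀
  have hF : ∀ α, F α = if h : Function.Injective (fun x : Set.Iio α => F x.1) then
      c ⟨α, ⟨_, h⟩⟩ else a₀ := by
    intro α
    exact WellFounded.fix_eq _ _ _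
  have key : ∀ α, Function.Injective (fun x : Set.Iio α => F x.1) →
      ∀ β < α, Function.Injective (fun x : Set.Iio β => F x.1) → F β ≠ F α := by
    intro α hα β hβα hβ
    rw [hF α, dif_pos hα, hF β, dif_pos hβ]
    exact hc _ _ ⟨hβα, fun x => rfl⟩
  have inj : ∀ α, Function.Injective (fun x : Set.Iio α => F x.1) := by
    intro α
    induction α using (wellFounded_lt (α := O)).induction with
    | _ α ih =>
      rintro ⟨β, hβ⟩ ⟨γ, hγ⟩ hEq
      rcases lt_trichotomy β γ with h | h | h
      · exact absurd hEq (key γ (ih γ hγ) β h (ih β hβ))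
      · exact Subtype.ext h
      · exact absurd hEq.symm (key β (ih β hβ) γ h (ih γ hγ))
  refine ⟨F, fun β γ hEq => ?_⟩
  rcases lt_trichotomy β γ with h | h | h
  · exact absurd hEq (key γ (inj γ) β h (inj β))
  · exact h
  · exact absurd hEq.symm (key β (inj β) γ h (inj γ))

/-- Every walk from `x` to a vertex that is neither `x` nor above `x` meets the set of the vertices
below `x`. -/
lemma walk_meets_below {x y : Node O A} (p : (graph O A).Walk x y) (hne : x ≠ y)
    (h : ¬ Below x y) : ∃ v ∈ p.support, Below v x := by
  obtain ⟨d, hd, h1, h2⟩ := p.exists_boundary_dart {v | x = v ∨ Below x v} (Or.inl rfl)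
    (fun h' => h'.elim hne h)
  refine ⟨d.snd, p.dart_snd_mem_support_of_mem_darts hd, ?_⟩
  have hadj := d.adj
  simp only [Set.mem_setOf_eq, not_or] at h1 h2
  rcases hadj with h3 | h3
  · exfalso
    apply h2.2
    rcases h1 with h1 | h1
    · rw [h1]; exact h3
    · exact h1.trans h3
  · rcases h1 with h1 | h1
    · rw [h1]; exact h3
    · rcases comparable_of_below h1 h3 with h4 | h4 | h4
      · exact absurd h4 h2.2
      · exact absurd h4 h2.1
      · exact h4

/-- The set of vertices below `x` injects into the set of elements below the length of `x`. -/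
lemma mk_below_le (x : Node O A) : #{v : Node O A // Below v x} ≤ #(Set.Iio x.1) := by
  refine Cardinal.mk_le_of_injective (f := fun v => ⟨v.1.1, v.2.1⟩) ?_
  rintro ⟨s, hs⟩ ⟨t, ht⟩ h
  have h' : s.1 = t.1 := congrArg Subtype.val h
  apply Subtype.ext
  rcases comparable_of_below hs ht with h1 | h1 | h1
  · exact absurd h' (ne_of_lt h1.1)
  · exact h1
  · exact absurd h' (ne_of_gt h1.1)

/-- A chain whose lengths are unbounded yields an injection from `O` to `A`. -/
lemma injection_of_chain (B : Set (Node O A)) (hB : ∀ x ∈ B, ∀ y ∈ B, x ≠ y → Below x y ∨ Below y x)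
    (hunb : ∀ β : O, ∃ x ∈ B, β < x.1) : ∃ F : O → A, Function.Injective F := by
  choose b hbB hb using hunb
  refine ⟨fun β => (b β).2.1 ⟨β, hb β⟩, ?_⟩
  -- agreement
  have agree : ∀ β γ : O, β ≤ γ → ∀ F : O → A, (F = fun β => (b β).2.1 ⟨β, hb β⟩) →
      F β = F γ → β = γ := by
    intro β γ hle F hF hEq
    subst hF
    have hEq' : (b β).2.1 ⟨β, hb β⟩ = (b γ).2.1 ⟨γ, hb γ⟩ := hEq
    by_cases hbb : b β = b γ
    · have h1 : ∀ (s t : Node O A) (h : s = t) (h1 : β < s.1) (h2 : β < t.1),
          s.2.1 ⟨β, h1⟩ = t.2.1 ⟨β, h2⟩ := by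
        rintro s t rfl h1 h2; rfl
      have hβ' : β < (b γ).1 := by rw [← hbb]; exact hb β
      rw [h1 _ _ hbb (hb β) hβ'] at hEq'
      have := (b γ).2.2 hEq'
      exact congrArg Subtype.val this
    · rcases hB _ (hbB β) _ (hbB γ) hbb with h1 | h1
      · obtain ⟨h1, k1⟩ := h1
        rw [← k1 ⟨β, hb β⟩] at hEq'
        exact congrArg Subtype.val ((b γ).2.2 hEq')
      · obtain ⟨h1, k1⟩ := h1
        rw [← k1 ⟨γ, hb γ⟩] at hEq'
        exact congrArg Subtype.val ((b β).2.2 hEq')
  intro β γ hEq
  rcases le_total β γ with h | h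
  · exact agree β γ h _ rfl hEq
  · exact (agree γ β h _ rfl hEq.symm).symm

end Construction

/-- **Main theorem.** For every infinite cardinal `a` there is a graph with chromatic number at
least `a⁺` that contains no subdivision of the complete graph on `a⁺` vertices. -/
theorem result (a : Cardinal.{u}) (ha : ℵ₀ ≤ a) :
    ∃ (V : Type u) (G : SimpleGraph V),
      Order.succ a ≤ chromaticCard G ∧ ¬ HasSubdivision G (Order.succ a) := by
  classical
  let O : Type u := (Order.succ a).ord.ToType
  let A : Type u := a.out
  have hO : #O = Order.succ a := Cardinal.mk_ord_toType _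
  have hA : #A = a := Cardinal.mk_out a
  have noinj : ¬ ∃ F : O → A, Function.Injective F := by
    rintro ⟨F, hF⟩
    have h := Cardinal.mk_le_of_injective hF
    rw [hO, hA] at h
    exact absurd h (not_le_of_gt (Order.lt_succ a))
  have hIio : ∀ α : O, #(Set.Iio α) ≤ a := by
    intro α
    have := Cardinal.mk_Iio_ord_toType (c := Order.succ a) α
    exact Order.lt_succ_iff.1 this
  have hAne : Nonempty A := by
    rw [← Cardinal.mk_ne_zero_iff, hA]
    exact (lt_of_lt_of_le Cardinal.aleph0_pos ha).ne'
  refine ⟨Node O A, graph O A, ?_, ?_⟩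
  · unfold chromaticCard
    refine le_csInf ⟨#(Node O A), Node O A, fun v => {v}, rfl, fun v => ?_, ?_⟩ ?_
    · intro x hx y hy hxy
      exact absurd (hx.trans hy.symm) hxy
    · ext v
      simp
    · rintro κ ⟨ι, I, rfl, hI, hU⟩
      by_contra hcon
      have hle : #ι ≤ #A := by
        rw [hA]
        exact Order.lt_succ_iff.1 (not_le.1 hcon)
      obtain ⟨e⟩ := Cardinal.le_def ι A |>.1 hle
      have hcov : ∀ v : Node O A, ∃ i, v ∈ I i := by
        intro v
        have : v ∈ ⋃ i, I i := by rw [hU]; exact Set.mem_univ v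
        exact Set.mem_iUnion.1 this
      choose c hc using hcov
      obtain ⟨a₀⟩ := hAne
      apply noinj
      refine injection_of_colouring (fun v => e (c v)) ?_ a₀
      intro s t hst hEq
      have h1 : c s = c t := e.injective hEq
      have h2 := hI (c t) (h1 ▸ hc s) (hc t) hst.ne
      exact h2 (Or.inl hst)
  · rintro ⟨B, P, hB, -, -, hin, hdisj⟩
    -- the branch vertices form a chain
    have chain : ∀ x ∈ B, ∀ y ∈ B, x ≠ y → Below x y ∨ Below y x := by
      intro x hx y hy hxy
      by_contra hcon
      rw [not_or] at hcon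
      have hxy' : (⟨x, hx⟩ : B) ≠ ⟨y, hy⟩ := fun h => hxy (congrArg Subtype.val h)
      let B' : Set B := {z | z ≠ ⟨x, hx⟩ ∧ z ≠ ⟨y, hy⟩}
      have hmeet : ∀ z : B', ∃ v : {v : Node O A // Below v x},
          v.1 ∈ (P ⟨x, hx⟩ z.1 (Ne.symm z.2.1)).support ∨ v.1 ∈ (P z.1 ⟨y, hy⟩ z.2.2).support := by
        intro z
        obtain ⟨v, hv, hvx⟩ := walk_meets_below
          ((P ⟨x, hx⟩ z.1 (Ne.symm z.2.1)).append (P z.1 ⟨y, hy⟩ z.2.2)) hxy hcon.1
        exact ⟨⟨v, hvx⟩, by simpa [SimpleGraph.Walk.mem_support_append_iff] using hv⟩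
      choose φ hφ using hmeet
      have hinB : ∀ z : B', (φ z).1 ∈ B → (φ z).1 = z.1.1 := by
        intro z hz
        rcases hφ z with h | h
        · rcases hin _ _ _ _ h hz with h1 | h1
          · exact absurd h1 (φ z).2.ne
          · exact h1
        · rcases hin _ _ _ _ h hz with h1 | h1
          · exact h1
          · exfalso
            have h2 := (φ z).2
            rw [h1] at h2
            exact hcon.2 h2
      have hinj : Function.Injective φ := by
        intro z z' hzz
        by_contra hne
        have hne' : z.1 ≠ z'.1 := fun h => hne (Subtype.ext h)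
        have hmem : (φ z).1 ∈ B := by
          have h1 := hφ z
          have h2 := hφ z'
          rw [← hzz] at h2
          have n1 : s((⟨x, hx⟩ : B), z.1) ≠ s((⟨x, hx⟩ : B), z'.1) := by
            intro h
            rw [Sym2.eq_iff] at h
            rcases h with ⟨_, h⟩ | ⟨h, _⟩
            · exact hne' h
            · exact z'.2.1 h.symm
          have n2 : s((⟨x, hx⟩ : B), z.1) ≠ s(z'.1, (⟨y, hy⟩ : B)) := by
            intro h
            rw [Sym2.eq_iff] at h
            rcases h with ⟨h, _⟩ | ⟨h, _⟩
            · exact z'.2.1 h.symm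
            · exact hxy' h
          have n3 : s(z.1, (⟨y, hy⟩ : B)) ≠ s((⟨x, hx⟩ : B), z'.1) := by
            intro h
            rw [Sym2.eq_iff] at h
            rcases h with ⟨h, _⟩ | ⟨_, h⟩
            · exact z.2.1 h
            · exact hxy' h.symm
          have n4 : s(z.1, (⟨y, hy⟩ : B)) ≠ s(z'.1, (⟨y, hy⟩ : B)) := by
            intro h
            rw [Sym2.eq_iff] at h
            rcases h with ⟨h, _⟩ | ⟨h, _⟩
            · exact hne' h
            · exact z.2.2 h
          rcases h1 with h1 | h1 <;> rcases h2 with h2 | h2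
          · exact hdisj _ _ _ _ _ _ n1 _ h1 h2
          · exact hdisj _ _ _ _ _ _ n2 _ h1 h2
          · exact hdisj _ _ _ _ _ _ n3 _ h1 h2
          · exact hdisj _ _ _ _ _ _ n4 _ h1 h2
        have e1 := hinB z hmem
        have e2 := hinB z' (by rw [← hzz]; exact hmem)
        apply hne'
        apply Subtype.ext
        rw [← e1, ← e2, hzz]
      have hcard : #B' ≤ a :=
        (Cardinal.mk_le_of_injective hinj).trans ((mk_below_le x).trans (hIio _))
      have hBle : #B ≤ a := by
        have hun : (Set.univ : Set B) = B' ∪ {⟨x, hx⟩, ⟨y, hy⟩} := by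
          ext z
          simp only [Set.mem_univ, Set.mem_union, Set.mem_insert_iff, Set.mem_singleton_iff,
            true_iff, B', Set.mem_setOf_eq]
          tauto
        have h1 : #B = #(Set.univ : Set B) := Cardinal.mk_univ.symm
        rw [h1, hun]
        refine (Cardinal.mk_union_le _ _).trans ?_
        refine (add_le_add hcard (Set.Finite.lt_aleph0 (Set.toFinite _)).le).trans ?_
        exact Cardinal.add_le_of_le ha le_rfl ha
      rw [hB] at hBle
      exact absurd hBle (not_le_of_gt (Order.lt_succ a))
    apply noinj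
    refine injection_of_chain B chain ?_
    intro β
    by_contra hcon
    push Not at hcon
    -- all lengths are at most β
    have hle : #B ≤ #(Set.Iic β) := by
      refine Cardinal.mk_le_of_injective (f := fun x => ⟨x.1.1, hcon x.1 x.2⟩) ?_
      rintro ⟨s, hs⟩ ⟨t, ht⟩ h
      have h' : s.1 = t.1 := congrArg Subtype.val h
      apply Subtype.ext
      by_contra hst
      rcases chain s hs t ht hst with h1 | h1
      · exact absurd h' (ne_of_lt h1.1)
      · exact absurd h' (ne_of_gt h1.1)
    have hIic : #(Set.Iic β) ≤ a := by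
      have : Set.Iic β = Set.Iio β ∪ {β} := by
        ext z
        simp [le_iff_lt_or_eq]
      rw [this]
      refine (Cardinal.mk_union_le _ _).trans ?_
      refine (add_le_add (hIio β) (Set.Finite.lt_aleph0 (Set.toFinite _)).le).trans ?_
      exact Cardinal.add_le_of_le ha le_rfl ha
    rw [hB] at hle
    exact absurd (hle.trans hIic) (not_le_of_gt (Order.lt_succ a))

end Pool.Agent.Results.MP_e76a7e_co.InjectiveSequences
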